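import Mathlib
import Pool.Agent.Helper76.CY.Ex

/-! Project CY (MP_9410e4_ag), piece CY-E3: the explicit differential. -/

set_option autoImplicit false

namespace Pool.Agent.Helper94.CY

open Pool.Agent.Helper76.CY

/-- the three integer coefficients of an entry -/
def val3 (i j k : Fin 10) : ℤ × ℤ × ℤ :=
  (orb 3 3 i j k - orb 1 4 i j k + orb 2 6 i j k, orb 2 7 i j k, orb 3 6 i j k)

lemma Dex_eq (u v : ℤ) {i j k : Fin 10} {p q r : ℤ} (h : val3 i j k = (p, q, r)) :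
    Dex u v i j k = (p : ℚ) + u * q + v * r := by
  have h1 := congrArg Prod.fst h
  have h2 := congrArg (fun x => x.2.1) h
  have h3 := congrArg (fun x => x.2.2) h
  simp only [val3] at h1 h2 h3
  simp only [Dex, h1, h2, h3]

lemma d033 (u v : ℤ) : Dex u v 0 3 3 = 2 := by
  rw [Dex_eq u v (p := 2) (q := 0) (r := 0) (by decide +kernel)]; push_cast; ring
lemma d134 (u v : ℤ) : Dex u v 1 3 4 = 0 := by
  rw [Dex_eq u v (p := 0) (q := 0) (r := 0) (by decide +kernel)]; push_cast; ring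
lemma d135 (u v : ℤ) : Dex u v 1 3 5 = 0 := by
  rw [Dex_eq u v (p := 0) (q := 0) (r := 0) (by decide +kernel)]; push_cast; ring
lemma d136 (u v : ℤ) : Dex u v 1 3 6 = 0 := by
  rw [Dex_eq u v (p := 0) (q := 0) (r := 0) (by decide +kernel)]; push_cast; ring
lemma d137 (u v : ℤ) : Dex u v 1 3 7 = 1 := by
  rw [Dex_eq u v (p := 1) (q := 0) (r := 0) (by decide +kernel)]; push_cast; ring
lemma d138 (u v : ℤ) : Dex u v 1 3 8 = (u : ℚ) := by
  rw [Dex_eq u v (p := 0) (q := 1) (r := 0) (by decide +kernel)]; push_cast; ring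
lemma d139 (u v : ℤ) : Dex u v 1 3 9 = 0 := by
  rw [Dex_eq u v (p := 0) (q := 0) (r := 0) (by decide +kernel)]; push_cast; ring
lemma d234 (u v : ℤ) : Dex u v 2 3 4 = 0 := by
  rw [Dex_eq u v (p := 0) (q := 0) (r := 0) (by decide +kernel)]; push_cast; ring
lemma d235 (u v : ℤ) : Dex u v 2 3 5 = 0 := by
  rw [Dex_eq u v (p := 0) (q := 0) (r := 0) (by decide +kernel)]; push_cast; ring
lemma d236 (u v : ℤ) : Dex u v 2 3 6 = -1 := by
  rw [Dex_eq u v (p := -1) (q := 0) (r := 0) (by decide +kernel)]; push_cast; ring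
lemma d237 (u v : ℤ) : Dex u v 2 3 7 = 0 := by
  rw [Dex_eq u v (p := 0) (q := 0) (r := 0) (by decide +kernel)]; push_cast; ring
lemma d238 (u v : ℤ) : Dex u v 2 3 8 = 0 := by
  rw [Dex_eq u v (p := 0) (q := 0) (r := 0) (by decide +kernel)]; push_cast; ring
lemma d239 (u v : ℤ) : Dex u v 2 3 9 = 0 := by
  rw [Dex_eq u v (p := 0) (q := 0) (r := 0) (by decide +kernel)]; push_cast; ring
lemma d303 (u v : ℤ) : Dex u v 3 0 3 = 2 := by
  rw [Dex_eq u v (p := 2) (q := 0) (r := 0) (by decide +kernel)]; push_cast; ring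
lemma d304 (u v : ℤ) : Dex u v 3 0 4 = 0 := by
  rw [Dex_eq u v (p := 0) (q := 0) (r := 0) (by decide +kernel)]; push_cast; ring
lemma d305 (u v : ℤ) : Dex u v 3 0 5 = (u : ℚ) := by
  rw [Dex_eq u v (p := 0) (q := 1) (r := 0) (by decide +kernel)]; push_cast; ring
lemma d306 (u v : ℤ) : Dex u v 3 0 6 = (v : ℚ) := by
  rw [Dex_eq u v (p := 0) (q := 0) (r := 1) (by decide +kernel)]; push_cast; ring
lemma d307 (u v : ℤ) : Dex u v 3 0 7 = (v : ℚ) := by
  rw [Dex_eq u v (p := 0) (q := 0) (r := 1) (by decide +kernel)]; push_cast; ring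
lemma d308 (u v : ℤ) : Dex u v 3 0 8 = 0 := by
  rw [Dex_eq u v (p := 0) (q := 0) (r := 0) (by decide +kernel)]; push_cast; ring
lemma d309 (u v : ℤ) : Dex u v 3 0 9 = -1 := by
  rw [Dex_eq u v (p := -1) (q := 0) (r := 0) (by decide +kernel)]; push_cast; ring
lemma d313 (u v : ℤ) : Dex u v 3 1 3 = 0 := by
  rw [Dex_eq u v (p := 0) (q := 0) (r := 0) (by decide +kernel)]; push_cast; ring
lemma d314 (u v : ℤ) : Dex u v 3 1 4 = 0 := by
  rw [Dex_eq u v (p := 0) (q := 0) (r := 0) (by decide +kernel)]; push_cast; ring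
lemma d315 (u v : ℤ) : Dex u v 3 1 5 = 0 := by
  rw [Dex_eq u v (p := 0) (q := 0) (r := 0) (by decide +kernel)]; push_cast; ring
lemma d316 (u v : ℤ) : Dex u v 3 1 6 = 0 := by
  rw [Dex_eq u v (p := 0) (q := 0) (r := 0) (by decide +kernel)]; push_cast; ring
lemma d317 (u v : ℤ) : Dex u v 3 1 7 = 1 := by
  rw [Dex_eq u v (p := 1) (q := 0) (r := 0) (by decide +kernel)]; push_cast; ring
lemma d318 (u v : ℤ) : Dex u v 3 1 8 = (u : ℚ) := by
  rw [Dex_eq u v (p := 0) (q := 1) (r := 0) (by decide +kernel)]; push_cast; ring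
lemma d319 (u v : ℤ) : Dex u v 3 1 9 = 0 := by
  rw [Dex_eq u v (p := 0) (q := 0) (r := 0) (by decide +kernel)]; push_cast; ring
lemma d323 (u v : ℤ) : Dex u v 3 2 3 = 0 := by
  rw [Dex_eq u v (p := 0) (q := 0) (r := 0) (by decide +kernel)]; push_cast; ring
lemma d324 (u v : ℤ) : Dex u v 3 2 4 = 0 := by
  rw [Dex_eq u v (p := 0) (q := 0) (r := 0) (by decide +kernel)]; push_cast; ring
lemma d325 (u v : ℤ) : Dex u v 3 2 5 = 0 := by
  rw [Dex_eq u v (p := 0) (q := 0) (r := 0) (by decide +kernel)]; push_cast; ring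
lemma d326 (u v : ℤ) : Dex u v 3 2 6 = -1 := by
  rw [Dex_eq u v (p := -1) (q := 0) (r := 0) (by decide +kernel)]; push_cast; ring
lemma d327 (u v : ℤ) : Dex u v 3 2 7 = 0 := by
  rw [Dex_eq u v (p := 0) (q := 0) (r := 0) (by decide +kernel)]; push_cast; ring
lemma d328 (u v : ℤ) : Dex u v 3 2 8 = 0 := by
  rw [Dex_eq u v (p := 0) (q := 0) (r := 0) (by decide +kernel)]; push_cast; ring
lemma d329 (u v : ℤ) : Dex u v 3 2 9 = 0 := by
  rw [Dex_eq u v (p := 0) (q := 0) (r := 0) (by decide +kernel)]; push_cast; ring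
lemma d330 (u v : ℤ) : Dex u v 3 3 0 = 2 := by
  rw [Dex_eq u v (p := 2) (q := 0) (r := 0) (by decide +kernel)]; push_cast; ring
lemma d331 (u v : ℤ) : Dex u v 3 3 1 = 0 := by
  rw [Dex_eq u v (p := 0) (q := 0) (r := 0) (by decide +kernel)]; push_cast; ring
lemma d332 (u v : ℤ) : Dex u v 3 3 2 = 0 := by
  rw [Dex_eq u v (p := 0) (q := 0) (r := 0) (by decide +kernel)]; push_cast; ring
lemma d333 (u v : ℤ) : Dex u v 3 3 3 = 0 := by
  rw [Dex_eq u v (p := 0) (q := 0) (r := 0) (by decide +kernel)]; push_cast; ring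
lemma d334 (u v : ℤ) : Dex u v 3 3 4 = 0 := by
  rw [Dex_eq u v (p := 0) (q := 0) (r := 0) (by decide +kernel)]; push_cast; ring
lemma d335 (u v : ℤ) : Dex u v 3 3 5 = 0 := by
  rw [Dex_eq u v (p := 0) (q := 0) (r := 0) (by decide +kernel)]; push_cast; ring
lemma d336 (u v : ℤ) : Dex u v 3 3 6 = 0 := by
  rw [Dex_eq u v (p := 0) (q := 0) (r := 0) (by decide +kernel)]; push_cast; ring
lemma d337 (u v : ℤ) : Dex u v 3 3 7 = 0 := by
  rw [Dex_eq u v (p := 0) (q := 0) (r := 0) (by decide +kernel)]; push_cast; ring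
lemma d338 (u v : ℤ) : Dex u v 3 3 8 = 0 := by
  rw [Dex_eq u v (p := 0) (q := 0) (r := 0) (by decide +kernel)]; push_cast; ring
lemma d339 (u v : ℤ) : Dex u v 3 3 9 = 0 := by
  rw [Dex_eq u v (p := 0) (q := 0) (r := 0) (by decide +kernel)]; push_cast; ring
lemma d340 (u v : ℤ) : Dex u v 3 4 0 = 0 := by
  rw [Dex_eq u v (p := 0) (q := 0) (r := 0) (by decide +kernel)]; push_cast; ring
lemma d341 (u v : ℤ) : Dex u v 3 4 1 = 0 := by
  rw [Dex_eq u v (p := 0) (q := 0) (r := 0) (by decide +kernel)]; push_cast; ring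
lemma d342 (u v : ℤ) : Dex u v 3 4 2 = 0 := by
  rw [Dex_eq u v (p := 0) (q := 0) (r := 0) (by decide +kernel)]; push_cast; ring
lemma d350 (u v : ℤ) : Dex u v 3 5 0 = (u : ℚ) := by
  rw [Dex_eq u v (p := 0) (q := 1) (r := 0) (by decide +kernel)]; push_cast; ring
lemma d351 (u v : ℤ) : Dex u v 3 5 1 = 0 := by
  rw [Dex_eq u v (p := 0) (q := 0) (r := 0) (by decide +kernel)]; push_cast; ring
lemma d352 (u v : ℤ) : Dex u v 3 5 2 = 0 := by
  rw [Dex_eq u v (p := 0) (q := 0) (r := 0) (by decide +kernel)]; push_cast; ring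
lemma d360 (u v : ℤ) : Dex u v 3 6 0 = (v : ℚ) := by
  rw [Dex_eq u v (p := 0) (q := 0) (r := 1) (by decide +kernel)]; push_cast; ring
lemma d361 (u v : ℤ) : Dex u v 3 6 1 = 0 := by
  rw [Dex_eq u v (p := 0) (q := 0) (r := 0) (by decide +kernel)]; push_cast; ring
lemma d362 (u v : ℤ) : Dex u v 3 6 2 = -1 := by
  rw [Dex_eq u v (p := -1) (q := 0) (r := 0) (by decide +kernel)]; push_cast; ring
lemma d370 (u v : ℤ) : Dex u v 3 7 0 = (v : ℚ) := by
  rw [Dex_eq u v (p := 0) (q := 0) (r := 1) (by decide +kernel)]; push_cast; ring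
lemma d371 (u v : ℤ) : Dex u v 3 7 1 = 1 := by
  rw [Dex_eq u v (p := 1) (q := 0) (r := 0) (by decide +kernel)]; push_cast; ring
lemma d372 (u v : ℤ) : Dex u v 3 7 2 = 0 := by
  rw [Dex_eq u v (p := 0) (q := 0) (r := 0) (by decide +kernel)]; push_cast; ring
lemma d380 (u v : ℤ) : Dex u v 3 8 0 = 0 := by
  rw [Dex_eq u v (p := 0) (q := 0) (r := 0) (by decide +kernel)]; push_cast; ring
lemma d381 (u v : ℤ) : Dex u v 3 8 1 = (u : ℚ) := by
  rw [Dex_eq u v (p := 0) (q := 1) (r := 0) (by decide +kernel)]; push_cast; ring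
lemma d382 (u v : ℤ) : Dex u v 3 8 2 = 0 := by
  rw [Dex_eq u v (p := 0) (q := 0) (r := 0) (by decide +kernel)]; push_cast; ring
lemma d390 (u v : ℤ) : Dex u v 3 9 0 = -1 := by
  rw [Dex_eq u v (p := -1) (q := 0) (r := 0) (by decide +kernel)]; push_cast; ring
lemma d391 (u v : ℤ) : Dex u v 3 9 1 = 0 := by
  rw [Dex_eq u v (p := 0) (q := 0) (r := 0) (by decide +kernel)]; push_cast; ring
lemma d392 (u v : ℤ) : Dex u v 3 9 2 = 0 := by
  rw [Dex_eq u v (p := 0) (q := 0) (r := 0) (by decide +kernel)]; push_cast; ring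
lemma d400 (u v : ℤ) : Dex u v 4 0 0 = 0 := by
  rw [Dex_eq u v (p := 0) (q := 0) (r := 0) (by decide +kernel)]; push_cast; ring
lemma d401 (u v : ℤ) : Dex u v 4 0 1 = -1 := by
  rw [Dex_eq u v (p := -1) (q := 0) (r := 0) (by decide +kernel)]; push_cast; ring
lemma d402 (u v : ℤ) : Dex u v 4 0 2 = 0 := by
  rw [Dex_eq u v (p := 0) (q := 0) (r := 0) (by decide +kernel)]; push_cast; ring
lemma d410 (u v : ℤ) : Dex u v 4 1 0 = -1 := by
  rw [Dex_eq u v (p := -1) (q := 0) (r := 0) (by decide +kernel)]; push_cast; ring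
lemma d411 (u v : ℤ) : Dex u v 4 1 1 = 0 := by
  rw [Dex_eq u v (p := 0) (q := 0) (r := 0) (by decide +kernel)]; push_cast; ring
lemma d412 (u v : ℤ) : Dex u v 4 1 2 = 0 := by
  rw [Dex_eq u v (p := 0) (q := 0) (r := 0) (by decide +kernel)]; push_cast; ring
lemma d420 (u v : ℤ) : Dex u v 4 2 0 = 0 := by
  rw [Dex_eq u v (p := 0) (q := 0) (r := 0) (by decide +kernel)]; push_cast; ring
lemma d421 (u v : ℤ) : Dex u v 4 2 1 = 0 := by
  rw [Dex_eq u v (p := 0) (q := 0) (r := 0) (by decide +kernel)]; push_cast; ring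
lemma d422 (u v : ℤ) : Dex u v 4 2 2 = 0 := by
  rw [Dex_eq u v (p := 0) (q := 0) (r := 0) (by decide +kernel)]; push_cast; ring
lemma d433 (u v : ℤ) : Dex u v 4 3 3 = 0 := by
  rw [Dex_eq u v (p := 0) (q := 0) (r := 0) (by decide +kernel)]; push_cast; ring
lemma d500 (u v : ℤ) : Dex u v 5 0 0 = 0 := by
  rw [Dex_eq u v (p := 0) (q := 0) (r := 0) (by decide +kernel)]; push_cast; ring
lemma d501 (u v : ℤ) : Dex u v 5 0 1 = 0 := by
  rw [Dex_eq u v (p := 0) (q := 0) (r := 0) (by decide +kernel)]; push_cast; ring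
lemma d502 (u v : ℤ) : Dex u v 5 0 2 = 0 := by
  rw [Dex_eq u v (p := 0) (q := 0) (r := 0) (by decide +kernel)]; push_cast; ring
lemma d510 (u v : ℤ) : Dex u v 5 1 0 = 0 := by
  rw [Dex_eq u v (p := 0) (q := 0) (r := 0) (by decide +kernel)]; push_cast; ring
lemma d511 (u v : ℤ) : Dex u v 5 1 1 = 0 := by
  rw [Dex_eq u v (p := 0) (q := 0) (r := 0) (by decide +kernel)]; push_cast; ring
lemma d512 (u v : ℤ) : Dex u v 5 1 2 = -1 := by
  rw [Dex_eq u v (p := -1) (q := 0) (r := 0) (by decide +kernel)]; push_cast; ring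
lemma d520 (u v : ℤ) : Dex u v 5 2 0 = 0 := by
  rw [Dex_eq u v (p := 0) (q := 0) (r := 0) (by decide +kernel)]; push_cast; ring
lemma d521 (u v : ℤ) : Dex u v 5 2 1 = -1 := by
  rw [Dex_eq u v (p := -1) (q := 0) (r := 0) (by decide +kernel)]; push_cast; ring
lemma d522 (u v : ℤ) : Dex u v 5 2 2 = 0 := by
  rw [Dex_eq u v (p := 0) (q := 0) (r := 0) (by decide +kernel)]; push_cast; ring
lemma d533 (u v : ℤ) : Dex u v 5 3 3 = 0 := by
  rw [Dex_eq u v (p := 0) (q := 0) (r := 0) (by decide +kernel)]; push_cast; ring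
lemma d600 (u v : ℤ) : Dex u v 6 0 0 = 0 := by
  rw [Dex_eq u v (p := 0) (q := 0) (r := 0) (by decide +kernel)]; push_cast; ring
lemma d601 (u v : ℤ) : Dex u v 6 0 1 = 0 := by
  rw [Dex_eq u v (p := 0) (q := 0) (r := 0) (by decide +kernel)]; push_cast; ring
lemma d602 (u v : ℤ) : Dex u v 6 0 2 = 1 := by
  rw [Dex_eq u v (p := 1) (q := 0) (r := 0) (by decide +kernel)]; push_cast; ring
lemma d610 (u v : ℤ) : Dex u v 6 1 0 = 0 := by
  rw [Dex_eq u v (p := 0) (q := 0) (r := 0) (by decide +kernel)]; push_cast; ring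
lemma d611 (u v : ℤ) : Dex u v 6 1 1 = 0 := by
  rw [Dex_eq u v (p := 0) (q := 0) (r := 0) (by decide +kernel)]; push_cast; ring
lemma d612 (u v : ℤ) : Dex u v 6 1 2 = 0 := by
  rw [Dex_eq u v (p := 0) (q := 0) (r := 0) (by decide +kernel)]; push_cast; ring
lemma d620 (u v : ℤ) : Dex u v 6 2 0 = 1 := by
  rw [Dex_eq u v (p := 1) (q := 0) (r := 0) (by decide +kernel)]; push_cast; ring
lemma d621 (u v : ℤ) : Dex u v 6 2 1 = 0 := by
  rw [Dex_eq u v (p := 0) (q := 0) (r := 0) (by decide +kernel)]; push_cast; ring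
lemma d622 (u v : ℤ) : Dex u v 6 2 2 = 0 := by
  rw [Dex_eq u v (p := 0) (q := 0) (r := 0) (by decide +kernel)]; push_cast; ring
lemma d633 (u v : ℤ) : Dex u v 6 3 3 = 0 := by
  rw [Dex_eq u v (p := 0) (q := 0) (r := 0) (by decide +kernel)]; push_cast; ring
lemma d700 (u v : ℤ) : Dex u v 7 0 0 = 2 := by
  rw [Dex_eq u v (p := 2) (q := 0) (r := 0) (by decide +kernel)]; push_cast; ring
lemma d701 (u v : ℤ) : Dex u v 7 0 1 = 0 := by
  rw [Dex_eq u v (p := 0) (q := 0) (r := 0) (by decide +kernel)]; push_cast; ring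
lemma d702 (u v : ℤ) : Dex u v 7 0 2 = (u : ℚ) := by
  rw [Dex_eq u v (p := 0) (q := 1) (r := 0) (by decide +kernel)]; push_cast; ring
lemma d710 (u v : ℤ) : Dex u v 7 1 0 = 0 := by
  rw [Dex_eq u v (p := 0) (q := 0) (r := 0) (by decide +kernel)]; push_cast; ring
lemma d711 (u v : ℤ) : Dex u v 7 1 1 = 0 := by
  rw [Dex_eq u v (p := 0) (q := 0) (r := 0) (by decide +kernel)]; push_cast; ring
lemma d712 (u v : ℤ) : Dex u v 7 1 2 = 0 := by
  rw [Dex_eq u v (p := 0) (q := 0) (r := 0) (by decide +kernel)]; push_cast; ring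
lemma d720 (u v : ℤ) : Dex u v 7 2 0 = (u : ℚ) := by
  rw [Dex_eq u v (p := 0) (q := 1) (r := 0) (by decide +kernel)]; push_cast; ring
lemma d721 (u v : ℤ) : Dex u v 7 2 1 = 0 := by
  rw [Dex_eq u v (p := 0) (q := 0) (r := 0) (by decide +kernel)]; push_cast; ring
lemma d722 (u v : ℤ) : Dex u v 7 2 2 = 0 := by
  rw [Dex_eq u v (p := 0) (q := 0) (r := 0) (by decide +kernel)]; push_cast; ring
lemma d733 (u v : ℤ) : Dex u v 7 3 3 = 0 := by
  rw [Dex_eq u v (p := 0) (q := 0) (r := 0) (by decide +kernel)]; push_cast; ring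
lemma d800 (u v : ℤ) : Dex u v 8 0 0 = 0 := by
  rw [Dex_eq u v (p := 0) (q := 0) (r := 0) (by decide +kernel)]; push_cast; ring
lemma d801 (u v : ℤ) : Dex u v 8 0 1 = 0 := by
  rw [Dex_eq u v (p := 0) (q := 0) (r := 0) (by decide +kernel)]; push_cast; ring
lemma d802 (u v : ℤ) : Dex u v 8 0 2 = 0 := by
  rw [Dex_eq u v (p := 0) (q := 0) (r := 0) (by decide +kernel)]; push_cast; ring
lemma d810 (u v : ℤ) : Dex u v 8 1 0 = 0 := by
  rw [Dex_eq u v (p := 0) (q := 0) (r := 0) (by decide +kernel)]; push_cast; ring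
lemma d811 (u v : ℤ) : Dex u v 8 1 1 = 2 := by
  rw [Dex_eq u v (p := 2) (q := 0) (r := 0) (by decide +kernel)]; push_cast; ring
lemma d812 (u v : ℤ) : Dex u v 8 1 2 = 0 := by
  rw [Dex_eq u v (p := 0) (q := 0) (r := 0) (by decide +kernel)]; push_cast; ring
lemma d820 (u v : ℤ) : Dex u v 8 2 0 = 0 := by
  rw [Dex_eq u v (p := 0) (q := 0) (r := 0) (by decide +kernel)]; push_cast; ring
lemma d821 (u v : ℤ) : Dex u v 8 2 1 = 0 := by
  rw [Dex_eq u v (p := 0) (q := 0) (r := 0) (by decide +kernel)]; push_cast; ring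
lemma d822 (u v : ℤ) : Dex u v 8 2 2 = 0 := by
  rw [Dex_eq u v (p := 0) (q := 0) (r := 0) (by decide +kernel)]; push_cast; ring
lemma d833 (u v : ℤ) : Dex u v 8 3 3 = 0 := by
  rw [Dex_eq u v (p := 0) (q := 0) (r := 0) (by decide +kernel)]; push_cast; ring
lemma d900 (u v : ℤ) : Dex u v 9 0 0 = 0 := by
  rw [Dex_eq u v (p := 0) (q := 0) (r := 0) (by decide +kernel)]; push_cast; ring
lemma d901 (u v : ℤ) : Dex u v 9 0 1 = 0 := by
  rw [Dex_eq u v (p := 0) (q := 0) (r := 0) (by decide +kernel)]; push_cast; ring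
lemma d902 (u v : ℤ) : Dex u v 9 0 2 = 0 := by
  rw [Dex_eq u v (p := 0) (q := 0) (r := 0) (by decide +kernel)]; push_cast; ring
lemma d910 (u v : ℤ) : Dex u v 9 1 0 = 0 := by
  rw [Dex_eq u v (p := 0) (q := 0) (r := 0) (by decide +kernel)]; push_cast; ring
lemma d911 (u v : ℤ) : Dex u v 9 1 1 = 0 := by
  rw [Dex_eq u v (p := 0) (q := 0) (r := 0) (by decide +kernel)]; push_cast; ring
lemma d912 (u v : ℤ) : Dex u v 9 1 2 = 0 := by
  rw [Dex_eq u v (p := 0) (q := 0) (r := 0) (by decide +kernel)]; push_cast; ring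
lemma d920 (u v : ℤ) : Dex u v 9 2 0 = 0 := by
  rw [Dex_eq u v (p := 0) (q := 0) (r := 0) (by decide +kernel)]; push_cast; ring
lemma d921 (u v : ℤ) : Dex u v 9 2 1 = 0 := by
  rw [Dex_eq u v (p := 0) (q := 0) (r := 0) (by decide +kernel)]; push_cast; ring
lemma d922 (u v : ℤ) : Dex u v 9 2 2 = 2 := by
  rw [Dex_eq u v (p := 2) (q := 0) (r := 0) (by decide +kernel)]; push_cast; ring
lemma d933 (u v : ℤ) : Dex u v 9 3 3 = 0 := by
  rw [Dex_eq u v (p := 0) (q := 0) (r := 0) (by decide +kernel)]; push_cast; ring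

lemma sum10 (f : Fin 10 → ℚ) :
    ∑ i, f i = f 0 + f 1 + f 2 + f 3 + f 4 + f 5 + f 6 + f 7 + f 8 + f 9 := by
  simp only [Fin.sum_univ_succ, Finset.univ_eq_empty, Finset.sum_empty]
  simp only [Fin.succ_zero_eq_one, Fin.succ_one_eq_two]
  ring_nf
  rfl

lemma tri_l (D : Ten ℚ) (x : Fin 10 → ℚ) (a b : Fin 10) :
    tri D x (bv ℚ a) (bv ℚ b) = ∑ l, D l a b * x l := by
  simp only [tri, bv, Pi.single_apply]
  refine Finset.sum_congr rfl fun l _ => ?_
  rw [Finset.sum_eq_single a (fun c _ hc => by simp [hc]) (by simp)]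
  rw [Finset.sum_eq_single b (fun c _ hc => by simp [hc]) (by simp)]
  simp

lemma tri_m (D : Ten ℚ) (x : Fin 10 → ℚ) (a b : Fin 10) :
    tri D (bv ℚ a) x (bv ℚ b) = ∑ l, D a l b * x l := by
  simp only [tri, bv, Pi.single_apply]
  rw [Finset.sum_eq_single a (fun c _ hc => by simp [hc]) (by simp)]
  refine Finset.sum_congr rfl fun l _ => ?_
  rw [Finset.sum_eq_single b (fun c _ hc => by simp [hc]) (by simp)]
  simp

lemma tri_r (D : Ten ℚ) (x : Fin 10 → ℚ) (a b : Fin 10) :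
    tri D (bv ℚ a) (bv ℚ b) x = ∑ l, D a b l * x l := by
  simp only [tri, bv, Pi.single_apply]
  rw [Finset.sum_eq_single a (fun c _ hc => by simp [hc]) (by simp)]
  rw [Finset.sum_eq_single b (fun c _ hc => by simp [hc]) (by simp)]
  refine Finset.sum_congr rfl fun l _ => ?_
  simp

section tvals

variable (τ : Idx → ℚ) (i : Fin 3)

lemma tv0 : tv τ i 0 = 0 := by simp [tv]
lemma tv1 : tv τ i 1 = 0 := by simp [tv]
lemma tv2 : tv τ i 2 = 0 := by simp [tv]
lemma tv3 : tv τ i 3 = τ (i, 0) := rfl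
lemma tv4 : tv τ i 4 = τ (i, 1) := rfl
lemma tv5 : tv τ i 5 = τ (i, 2) := rfl
lemma tv6 : tv τ i 6 = τ (i, 3) := rfl
lemma tv7 : tv τ i 7 = τ (i, 4) := rfl
lemma tv8 : tv τ i 8 = τ (i, 5) := rfl
lemma tv9 : tv τ i 9 = τ (i, 6) := rfl

end tvals

/-- the vector `m` -/
def mvec (u v : ℚ) (τ : Idx → ℚ) : Fin 10 → ℚ :=
  ![0, 0, 0, 0, Bfun u v τ (2, 0), Bfun u v τ (2, 1), Bfun u v τ (2, 2), Bfun u v τ (2, 3),
    Bfun u v τ (2, 4), Bfun u v τ (2, 5)]

section mvals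

variable (u v : ℚ) (τ : Idx → ℚ)

lemma mv0 : mvec u v τ 0 = 0 := rfl
lemma mv1 : mvec u v τ 1 = 0 := rfl
lemma mv2 : mvec u v τ 2 = 0 := rfl
lemma mv3 : mvec u v τ 3 = 0 := rfl
lemma mv4 : mvec u v τ 4 = τ (0, 4) + u * τ (0, 5) + 2 * τ (1, 0) + u * τ (1, 2) +
    v * τ (1, 3) + v * τ (1, 4) - τ (1, 6) := rfl
lemma mv5 : mvec u v τ 5 = -τ (1, 3) + τ (2, 4) + u * τ (2, 5) := rfl
lemma mv6 : mvec u v τ 6 = 2 * u * τ (0, 0) + u ^ 2 * τ (0, 2) + (u * v + 1) * τ (0, 3) +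
    u * v * τ (0, 4) - u * τ (0, 6) - 2 * τ (2, 0) - u * τ (2, 2) - v * τ (2, 3) -
    v * τ (2, 4) + τ (2, 6) := rfl
lemma mv7 : mvec u v τ 7 = -2 * τ (0, 0) - u * τ (0, 2) - v * τ (0, 3) - v * τ (0, 4) +
    τ (0, 6) := rfl
lemma mv8 : mvec u v τ 8 = -τ (1, 4) - u * τ (1, 5) := rfl
lemma mv9 : mvec u v τ 9 = τ (2, 3) := rfl

lemma b06 : Bfun u v τ (0, 6) = 2 * τ (0, 0) + u * τ (0, 2) + v * τ (0, 3) + v * τ (0, 4) -
    τ (0, 6) + u * τ (1, 4) + u ^ 2 * τ (1, 5) := rfl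
lemma b16 : Bfun u v τ (1, 6) = 2 * u * τ (0, 0) + u ^ 2 * τ (0, 2) + (u * v + 1) * τ (0, 3) +
    u * v * τ (0, 4) - u * τ (0, 6) - 2 * τ (2, 0) - u * τ (2, 2) - v * τ (2, 3) -
    v * τ (2, 4) + τ (2, 6) := rfl

/-- the values of the new vectors -/
lemma cmb (x : Fin 10 → ℚ) (c : ℚ) (j : Fin 10) (hj : j ≠ 0) : (x - c • bv ℚ 0) j = x j := by
  simp [bv, hj]

lemma cmb0 (x : Fin 10 → ℚ) (c : ℚ) : (x - c • bv ℚ 0) 0 = x 0 - c := by
  simp [bv]

end mvals

lemma c30 : c3 0 = 0 := rfl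
lemma c31 : c3 1 = 1 := rfl
lemma c32 : c3 2 = 2 := rfl

theorem isStep_Bfun (u v : ℤ) (τ : Idx → ℚ) : IsStep (Dex u v) τ (Bfun u v τ) := by
  refine ⟨mvec u v τ, ![-Bfun u v τ (0, 6), -Bfun u v τ (1, 6), 0], rfl, rfl, rfl, rfl,
    ?_, ?_, ?_, ?_, ?_⟩
  · intro i j
    rw [tri_l, tri_m, tri_r]
    simp only [sum10, mv0, mv1, mv2, mv3, mv4, mv5, mv6, mv7, mv8, mv9, tv0, tv1, tv2, tv3, tv4,
      tv5, tv6, tv7, tv8, tv9]
    fin_cases i <;> fin_cases j <;>
    simp only [Fin.zero_eta, Fin.mk_one, Fin.reduceFinMk, c30, c31, c32, d303, d304, d305, d306,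
      d307, d308, d309, d313, d314, d315, d316, d317, d318, d319, d323, d324, d325, d326, d327,
      d328, d329, d330, d331, d332, d340, d341, d342, d350, d351, d352, d360, d361, d362, d370,
      d371, d372, d380, d381, d382, d390, d391, d392, d400, d401, d402, d410, d411, d412, d420,
      d421, d422, d500, d501, d502, d510, d511, d512, d520, d521, d522, d600, d601, d602, d610,
      d611, d612, d620, d621, d622, d700, d701, d702, d710, d711, d712, d720, d721, d722, d800,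
      d801, d802, d810, d811, d812, d820, d821, d822, d900, d901, d902, d910, d911, d912, d920,
      d921, d922, mul_zero, zero_mul, add_zero, zero_add]
    all_goals ring
  · rw [tri_l, tri_r, d033]
    simp only [sum10, mv0, mv1, mv2, mv3, mv4, mv5, mv6, mv7, mv8, mv9, tv0, tv1, tv2, tv3, tv4,
      tv5, tv6, tv7, tv8, tv9, d333, d433, d533, d633, d733, d833, d933, d134, d135, d136, d137,
      d138, d139]
    simp only [Matrix.cons_val_zero, b06]
    ring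
  · rw [tri_l, tri_r, d033]
    simp only [sum10, mv0, mv1, mv2, mv3, mv4, mv5, mv6, mv7, mv8, mv9, tv0, tv1, tv2, tv3, tv4,
      tv5, tv6, tv7, tv8, tv9, d333, d433, d533, d633, d733, d833, d933, d234, d235, d236, d237,
      d238, d239]
    simp only [Matrix.cons_val_one, Matrix.cons_val_zero, b16]
    ring
  · rw [tri_r, d033]
    simp only [sum10, mv0, mv1, mv2, mv3, mv4, mv5, mv6, mv7, mv8, mv9, d334, d335, d336, d337,
      d338, d339]
    simp
  · intro k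
    fin_cases k
    · exact ⟨Eq.trans (b := tv τ 1 4) rfl (cmb (tv τ 1) _ 4 (by decide)).symm,
        Eq.trans (b := tv τ 2 4) rfl (cmb (tv τ 2) _ 4 (by decide)).symm,
        Eq.trans (b := mvec u v τ 4) rfl (cmb (mvec u v τ) _ 4 (by decide)).symm⟩
    · exact ⟨Eq.trans (b := tv τ 1 5) rfl (cmb (tv τ 1) _ 5 (by decide)).symm,
        Eq.trans (b := tv τ 2 5) rfl (cmb (tv τ 2) _ 5 (by decide)).symm,
        Eq.trans (b := mvec u v τ 5) rfl (cmb (mvec u v τ) _ 5 (by decide)).symm⟩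
    · exact ⟨Eq.trans (b := tv τ 1 6) rfl (cmb (tv τ 1) _ 6 (by decide)).symm,
        Eq.trans (b := tv τ 2 6) rfl (cmb (tv τ 2) _ 6 (by decide)).symm,
        Eq.trans (b := mvec u v τ 6) rfl (cmb (mvec u v τ) _ 6 (by decide)).symm⟩
    · exact ⟨Eq.trans (b := tv τ 1 7) rfl (cmb (tv τ 1) _ 7 (by decide)).symm,
        Eq.trans (b := tv τ 2 7) rfl (cmb (tv τ 2) _ 7 (by decide)).symm,
        Eq.trans (b := mvec u v τ 7) rfl (cmb (mvec u v τ) _ 7 (by decide)).symm⟩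
    · exact ⟨Eq.trans (b := tv τ 1 8) rfl (cmb (tv τ 1) _ 8 (by decide)).symm,
        Eq.trans (b := tv τ 2 8) rfl (cmb (tv τ 2) _ 8 (by decide)).symm,
        Eq.trans (b := mvec u v τ 8) rfl (cmb (mvec u v τ) _ 8 (by decide)).symm⟩
    · exact ⟨Eq.trans (b := tv τ 1 9) rfl (cmb (tv τ 1) _ 9 (by decide)).symm,
        Eq.trans (b := tv τ 2 9) rfl (cmb (tv τ 2) _ 9 (by decide)).symm,
        Eq.trans (b := mvec u v τ 9) rfl (cmb (mvec u v τ) _ 9 (by decide)).symm⟩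
    · refine ⟨?_, ?_, ?_⟩
      · refine Eq.trans ?_ (cmb0 _ _).symm
        rw [tv0, zero_sub]
        exact (neg_neg _).symm
      · refine Eq.trans ?_ (cmb0 _ _).symm
        rw [tv0, zero_sub]
        exact (neg_neg _).symm
      · refine Eq.trans ?_ (cmb0 _ _).symm
        rw [mv0, zero_sub]
        exact neg_zero.symm

end Pool.Agent.Helper94.CY
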